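import Pool.Agent.Y875.UE.Stm

/-! Project UE (helper875), jobs EPS and NV: augmentations; a root of unity sum. -/

set_option autoImplicit false

namespace Pool.Agent.Y888.UE

open Finset Pool.Agent.Y875.UE

section eps

variable {R : Type} [CommRing R] {k : ℕ}

theorem sg_add (hk : 1 ≤ k) (A B : ZMod (2 ^ k)) : sg (A + B) = sg A * sg B := by
  unfold sg
  rw [ZMod.val_add, ← pow_add, neg_one_pow_eq_pow_mod_two,
    neg_one_pow_eq_pow_mod_two (A.val + B.val),
    Nat.mod_mod_of_dvd _ (dvd_pow_self 2 (by omega))]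

theorem sg_zero : sg (0 : ZMod (2 ^ k)) = 1 := by
  unfold sg
  rw [ZMod.val_zero, pow_zero]

/-- the sign as a monoid homomorphism -/
def sgH (R : Type) [CommRing R] (hk : 1 ≤ k) : Multiplicative (ZMod (2 ^ k)) →* R where
  toFun A := ((sg (Multiplicative.toAdd A) : ℤ) : R)
  map_one' := by
    rw [toAdd_one, sg_zero, Int.cast_one]
  map_mul' A B := by
    rw [toAdd_mul, sg_add hk, Int.cast_mul]

theorem lift_eq (F : Multiplicative (ZMod (2 ^ k)) →* R) (f : GR R (2 ^ k)) :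
    AddMonoidAlgebra.lift R R (ZMod (2 ^ k)) F f =
      ∑ A : ZMod (2 ^ k), F (Multiplicative.ofAdd A) * f.coeff A := by
  rw [AddMonoidAlgebra.lift_apply, Finsupp.sum_fintype _ _ (fun _ => by rw [zero_smul])]
  refine sum_congr rfl fun A _ => ?_
  rw [smul_eq_mul, mul_comm]

theorem lift_PN (F : Multiplicative (ZMod (2 ^ k)) →* R) (c : ℕ → R) (n : ℕ)
    (h : GR R (2 ^ k)) :
    AddMonoidAlgebra.lift R R (ZMod (2 ^ k)) F (PN c n h) =
      ∑ i ∈ range n, c i * (AddMonoidAlgebra.lift R R (ZMod (2 ^ k)) F h) ^ (i + 1) := by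
  unfold PN
  rw [map_sum]
  refine sum_congr rfl fun i _ => ?_
  rw [map_mul, map_pow, AddMonoidAlgebra.lift_single, ofAdd_zero, map_one, smul_eq_mul, mul_one]

theorem isUnit_iff_odd (hk : 1 ≤ k) (A : ZMod (2 ^ k)) : IsUnit A ↔ Odd A.val := by
  have h1 : A = ((A.val : ℕ) : ZMod (2 ^ k)) := (ZMod.natCast_zmod_val A).symm
  conv_lhs => rw [h1]
  rw [ZMod.isUnit_iff_coprime, Nat.coprime_pow_right_iff (by omega), Nat.coprime_two_right]

theorem sum_units (hk : 1 ≤ k) (g : ZMod (2 ^ k) → R) :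
    2 * ∑ t : (ZMod (2 ^ k))ˣ, g t = ∑ A, g A - ∑ A, ((sg A : ℤ) : R) * g A := by
  classical
  have h1 : ∑ t : (ZMod (2 ^ k))ˣ, g t = ∑ A : ZMod (2 ^ k), if Odd A.val then g A else 0 := by
    rw [← sum_filter]
    refine sum_nbij (fun t : (ZMod (2 ^ k))ˣ => (t : ZMod (2 ^ k))) ?_ ?_ ?_ ?_
    · intro t _
      rw [mem_filter]
      exact ⟨mem_univ _, (isUnit_iff_odd hk _).1 t.isUnit⟩
    · intro t _ t' _ h
      exact Units.ext h
    · intro A hA
      have h2 : Odd A.val := by simpa using hA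
      obtain ⟨t, ht⟩ := (isUnit_iff_odd hk A).2 h2
      exact ⟨t, by simp, ht⟩
    · intro t _
      rfl
  rw [h1, mul_sum, ← sum_sub_distrib]
  refine sum_congr rfl fun A _ => ?_
  unfold sg
  split_ifs with h2
  · rw [h2.neg_one_pow]
    push_cast
    ring
  · rw [(Nat.not_odd_iff_even.1 h2).neg_one_pow]
    push_cast
    ring

end eps

theorem t_EPS : S_EPS := by
  intro R E _ _ _ k hk l lam c n a b ha hb
  rw [sum_units hk (fun A => (PN c n (HH l lam)).coeff A)]
  have h1 := lift_PN (1 : Multiplicative (ZMod (2 ^ k)) →* R) c n (HH l lam)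
  have h2 := lift_PN (sgH R hk) c n (HH l lam)
  rw [lift_eq, lift_eq] at h1 h2
  simp only [MonoidHom.one_apply, one_mul] at h1
  have h3 : ∀ A : ZMod (2 ^ k), sgH R hk (Multiplicative.ofAdd A) = ((sg A : ℤ) : R) := fun A => rfl
  simp only [h3] at h2
  rw [h1, h2, ← ha, ← hb]

section nv

variable {T : Type} [Field T] [CharZero T]

theorem nv_aux {h : ℕ} {v : T} (hv : v ^ (2 * h + 1) = 1) :
    ∑ b ∈ range (2 * h + 1), v ^ b * ((if 2 * b < 2 * h + 1 then (1 : T) / 2 else 0) - 1 / 4) ≠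
      0 := by
  have h1 : ∑ b ∈ range (2 * h + 1), v ^ b * ((if 2 * b < 2 * h + 1 then (1 : T) / 2 else 0) -
      1 / 4) = 1 / 2 * ∑ b ∈ range (h + 1), v ^ b - 1 / 4 * ∑ b ∈ range (2 * h + 1), v ^ b := by
    have h2 : ∑ b ∈ range (h + 1), v ^ b = ∑ b ∈ range (2 * h + 1),
        if 2 * b < 2 * h + 1 then v ^ b else 0 := by
      rw [← sum_filter]
      refine sum_congr ?_ fun _ _ => rfl
      ext b
      simp only [mem_range, mem_filter]
      omega
    rw [h2, mul_sum, mul_sum, ← sum_sub_distrib]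
    refine sum_congr rfl fun b _ => ?_
    split_ifs <;> ring
  rw [h1]
  by_cases hv1 : v = 1
  · subst hv1
    simp only [one_pow, sum_const, card_range, nsmul_eq_mul, mul_one]
    push_cast
    have h2 : (1 : T) / 2 * (h + 1) - 1 / 4 * (2 * h + 1) = 1 / 4 := by ring
    rw [h2]
    norm_num
  · have hs : v - 1 ≠ 0 := sub_ne_zero.2 hv1
    have h2 : ∑ b ∈ range (2 * h + 1), v ^ b = 0 := by
      have h3 := geom_sum_mul v (2 * h + 1)
      rw [hv, sub_self] at h3
      exact (mul_eq_zero.1 h3).resolve_right hs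
    rw [h2, mul_zero, sub_zero]
    intro h3
    have h4 : ∑ b ∈ range (h + 1), v ^ b = 0 := by
      have h5 : (1 : T) / 2 ≠ 0 := by norm_num
      exact (mul_eq_zero.1 h3).resolve_left h5
    have h5 := geom_sum_mul v (h + 1)
    rw [h4, zero_mul] at h5
    have h6 : v ^ (h + 1) = 1 := (sub_eq_zero.1 h5.symm)
    apply hv1
    have h7 : v ^ (2 * h + 1) * v = 1 := by
      rw [← pow_succ, show 2 * h + 1 + 1 = (h + 1) * 2 by ring, pow_mul, h6, one_pow]
    rwa [hv, one_mul] at h7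

end nv

theorem t_NV : S_NV := by
  intro T _ _ u j hu hj w hw
  obtain ⟨h, rfl⟩ := hu
  -- inverse of `j`
  obtain ⟨j', hj'⟩ : ∃ j', j * j' ≡ 1 [MOD (2 * h + 1)] := by
    rcases Nat.eq_zero_or_pos h with h0 | h0
    · subst h0
      exact ⟨0, Nat.modEq_one⟩
    · obtain ⟨m, -, hm⟩ := Nat.exists_mul_mod_eq_one_of_coprime hj (by omega)
      refine ⟨m, ?_⟩
      show j * m % (2 * h + 1) = 1 % (2 * h + 1)
      rw [hm, Nat.mod_eq_of_lt (by omega)]
  set v := w ^ j' with hv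
  have hvu : v ^ (2 * h + 1) = 1 := by
    rw [hv, ← pow_mul, mul_comm, pow_mul, hw, one_pow]
  have hmod : ∀ (x : T) (hx : x ^ (2 * h + 1) = 1) (a b : ℕ), a ≡ b [MOD (2 * h + 1)] →
      x ^ a = x ^ b := by
    intro x hx a b hab
    have h1 : ∀ c, x ^ c = x ^ (c % (2 * h + 1)) := by
      intro c
      conv_lhs => rw [← Nat.div_add_mod c (2 * h + 1), pow_add, pow_mul, hx, one_pow, one_mul]
    rw [h1 a, h1 b, hab]
  have hwa : ∀ a, w ^ a = v ^ (a * j % (2 * h + 1)) := by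
    intro a
    rw [hmod v hvu (a * j % (2 * h + 1)) (a * j) (Nat.mod_modEq _ _), hv, ← pow_mul]
    refine hmod w hw _ _ ?_
    have h1 := hj'.mul_left a
    rw [mul_one] at h1
    have h2 : j' * (a * j) = a * (j * j') := by ring
    rw [h2]
    exact h1.symm
  have h0 : (1 : T) / 4 + ∑ a ∈ Ico 1 (2 * h + 1), w ^ a *
      ((if 2 * ((a * j) % (2 * h + 1)) < 2 * h + 1 then (1 : T) / 2 else 0) - 1 / 4) =
      ∑ a ∈ range (2 * h + 1), w ^ a *
      ((if 2 * ((a * j) % (2 * h + 1)) < 2 * h + 1 then (1 : T) / 2 else 0) - 1 / 4) := by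
    rw [range_eq_Ico, Finset.sum_eq_sum_Ico_succ_bot (by omega : 0 < 2 * h + 1)]
    simp
    norm_num
  rw [h0]
  have h1 : ∑ a ∈ range (2 * h + 1), w ^ a *
      ((if 2 * ((a * j) % (2 * h + 1)) < 2 * h + 1 then (1 : T) / 2 else 0) - 1 / 4) =
      ∑ b ∈ range (2 * h + 1), v ^ b * ((if 2 * b < 2 * h + 1 then (1 : T) / 2 else 0) -
        1 / 4) := by
    refine sum_nbij' (fun a => a * j % (2 * h + 1)) (fun b => b * j' % (2 * h + 1)) ?_ ?_ ?_ ?_ ?_
    · intro a _
      exact mem_range.2 (Nat.mod_lt _ (by omega))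
    · intro b _
      exact mem_range.2 (Nat.mod_lt _ (by omega))
    · intro a ha
      have h2 : a * j % (2 * h + 1) * j' ≡ a [MOD (2 * h + 1)] := by
        refine ((Nat.mod_modEq _ _).mul_right j').trans ?_
        rw [mul_assoc]
        simpa using hj'.mul_left a
      have h3 : a * j % (2 * h + 1) * j' % (2 * h + 1) = a % (2 * h + 1) := h2
      rw [Nat.mod_eq_of_lt (mem_range.1 ha)] at h3
      exact h3
    · intro b hb
      have h2 : b * j' % (2 * h + 1) * j ≡ b [MOD (2 * h + 1)] := by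
        refine ((Nat.mod_modEq _ _).mul_right j).trans ?_
        rw [mul_assoc, mul_comm j' j]
        simpa using hj'.mul_left b
      have h3 : b * j' % (2 * h + 1) * j % (2 * h + 1) = b % (2 * h + 1) := h2
      rw [Nat.mod_eq_of_lt (mem_range.1 hb)] at h3
      exact h3
    · intro a _
      rw [hwa a]
  rw [h1]
  exact nv_aux hvu

end Pool.Agent.Y888.UE
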