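import Pool.Agent.Y875.UE.Stm

/-! Project UE (helper875), job ORB: orbit sums modulo `2^k`. -/

set_option autoImplicit false

namespace Pool.Agent.Y888.UE

open Finset Pool.Agent.Y875.UE

/-- the sum over a group as a sum over the orbits of an element -/
theorem orbit_sum {G : Type*} [CommGroup G] [Fintype G] (Q : G) {R : Type*} [AddCommMonoid R]
    [Fintype (G ⧸ Subgroup.zpowers Q)] (F : G → R) :
    ∑ t, F t = ∑ c : G ⧸ Subgroup.zpowers Q, ∑ i ∈ range (orderOf Q), F (Q ^ i * c.out) := by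
  classical
  rw [← Finset.sum_fiberwise (univ : Finset G)
    (fun t : G => (QuotientGroup.mk t : G ⧸ Subgroup.zpowers Q)) F]
  refine sum_congr rfl fun c _ => ?_
  have h1 : (univ.filter fun t : G => (QuotientGroup.mk t : G ⧸ Subgroup.zpowers Q) = c) =
      (range (orderOf Q)).image fun i => Q ^ i * c.out := by
    ext t
    simp only [mem_filter, mem_univ, true_and, mem_image, mem_range]
    constructor
    · intro h
      have h2 : (QuotientGroup.mk c.out : G ⧸ Subgroup.zpowers Q) = QuotientGroup.mk t := by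
        rw [h]
        exact QuotientGroup.out_eq' c
      rw [QuotientGroup.eq] at h2
      have h3 := (mem_zpowers_iff_mem_range_orderOf (x := Q)).1 h2
      simp only [mem_image, mem_range] at h3
      obtain ⟨i, hi, h4⟩ := h3
      refine ⟨i, hi, ?_⟩
      rw [h4, mul_comm, mul_inv_cancel_left]
    · rintro ⟨i, -, rfl⟩
      have h2 : (QuotientGroup.mk c.out : G ⧸ Subgroup.zpowers Q) = QuotientGroup.mk (Q ^ i * c.out) := by
        rw [QuotientGroup.eq, mul_comm (Q ^ i), inv_mul_cancel_left]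
        exact Subgroup.npow_mem_zpowers Q i
      rw [← h2]
      exact QuotientGroup.out_eq' c
  rw [h1, sum_image]
  intro i hi j hj hij
  have h2 : Q ^ i = Q ^ j := mul_right_cancel hij
  exact pow_injOn_Iio_orderOf (by simpa using hi) (by simpa using hj) h2

section key

variable {q e u k f M : ℕ} (L : Lev q e u k f M)

theorem val_mul_q (x : ZMod (2 ^ k)) : ((q : ZMod (2 ^ k)) * x).val = (q * x.val) % 2 ^ k := by
  have h1 : (q : ZMod (2 ^ k)) * x = ((q * x.val : ℕ) : ZMod (2 ^ k)) := by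
    rw [Nat.cast_mul, ZMod.natCast_zmod_val]
  rw [h1, ZMod.val_natCast]

/-- the quotients -/
def Fq (q k : ℕ) (t : (ZMod (2 ^ k))ˣ) : ℕ := q * (t : ZMod (2 ^ k)).val / 2 ^ k

theorem Fq_lt (hq : 0 < q) (t : (ZMod (2 ^ k))ˣ) : Fq q k t < q := by
  unfold Fq
  rw [Nat.div_lt_iff_lt_mul (by positivity)]
  exact Nat.mul_lt_mul_of_pos_left (ZMod.val_lt _) hq

theorem step {Q : (ZMod (2 ^ k))ˣ} (hQ : (Q : ZMod (2 ^ k)) = q) (t : (ZMod (2 ^ k))ˣ) :
    2 ^ k * Fq q k t + ((Q * t : (ZMod (2 ^ k))ˣ) : ZMod (2 ^ k)).val =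
      q * (t : ZMod (2 ^ k)).val := by
  rw [Units.val_mul, hQ, val_mul_q]
  exact Nat.div_add_mod _ _

theorem tele {Q : (ZMod (2 ^ k))ˣ} (hQ : (Q : ZMod (2 ^ k)) = q) (t : (ZMod (2 ^ k))ˣ) (n : ℕ) :
    2 ^ k * ∑ i ∈ range n, q ^ (n - 1 - i) * Fq q k (Q ^ i * t) +
      ((Q ^ n * t : (ZMod (2 ^ k))ˣ) : ZMod (2 ^ k)).val = q ^ n * (t : ZMod (2 ^ k)).val := by
  induction n with
  | zero => simp
  | succ n ih =>
    have h1 : ∑ i ∈ range n, q ^ (n + 1 - 1 - i) * Fq q k (Q ^ i * t) =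
        q * ∑ i ∈ range n, q ^ (n - 1 - i) * Fq q k (Q ^ i * t) := by
      rw [mul_sum]
      refine sum_congr rfl fun i hi => ?_
      rw [mem_range] at hi
      rw [← mul_assoc, ← pow_succ', show n - 1 - i + 1 = n + 1 - 1 - i by omega]
    have h2 := step hQ (Q ^ n * t)
    rw [sum_range_succ, h1, pow_succ' Q n, mul_assoc Q, show n + 1 - 1 - n = 0 by omega, pow_zero,
      one_mul, pow_succ' q n, mul_assoc q, ← ih, mul_add, mul_add, ← h2]
    ring

include L in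
theorem key {Q : (ZMod (2 ^ k))ˣ} (hQ : (Q : ZMod (2 ^ k)) = q) (t : (ZMod (2 ^ k))ˣ) :
    ((∑ i ∈ range f, wt q k (Q ^ i * t) *
      (((Q ^ i * t)⁻¹ : (ZMod (2 ^ k))ˣ) : ZMod (2 ^ k)).val : ℕ) : ZMod (2 ^ k)) =
      -((q : ZMod (2 ^ k)) * M) := by
  have hq0 : 0 < q := L.prime.pos
  have hord : orderOf Q = f := by
    rw [← orderOf_units, hQ, L.ord]
  have hQf : Q ^ f = 1 := by rw [← hord]; exact pow_orderOf_eq_one Q
  have hqf : (q : ZMod (2 ^ k)) ^ f = 1 := by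
    rw [← hQ, ← Units.val_pow_eq_pow_val, hQf, Units.val_one]
  have hf0 : 0 < f := by
    rcases Nat.eq_zero_or_pos f with h | h
    · have := L.card
      rw [h, pow_zero] at this
      have h2 := L.hM.pos
      have h3 : 0 < 2 ^ k * M := by positivity
      omega
    · exact h
  -- the inverses
  have hinv : ∀ i ∈ range f, (((Q ^ i * t)⁻¹ : (ZMod (2 ^ k))ˣ) : ZMod (2 ^ k)) =
      (q : ZMod (2 ^ k)) ^ (f - 1 - i) * (q * ((t⁻¹ : (ZMod (2 ^ k))ˣ) : ZMod (2 ^ k))) := by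
    intro i hi
    rw [mem_range] at hi
    have h1 : (Q ^ i * t)⁻¹ = Q ^ (f - 1 - i) * (Q * t⁻¹) := by
      rw [inv_eq_iff_mul_eq_one]
      have h2 : Q ^ i * t * (Q ^ (f - 1 - i) * (Q * t⁻¹)) =
          (Q ^ i * Q ^ (f - 1 - i) * Q) * (t * t⁻¹) := by
        ac_rfl
      rw [h2, mul_inv_cancel, mul_one, ← pow_add, ← pow_succ,
        show i + (f - 1 - i) + 1 = f by omega, hQf]
    rw [h1, Units.val_mul, Units.val_mul, Units.val_pow_eq_pow_val, hQ]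
  -- the weights
  have hw : ∀ i, ((wt q k (Q ^ i * t) : ℕ) : ZMod (2 ^ k)) =
      (q : ZMod (2 ^ k)) - 1 - (Fq q k (Q ^ i * t) : ZMod (2 ^ k)) := by
    intro i
    have h1 : wt q k (Q ^ i * t) = q - 1 - Fq q k (Q ^ i * t) := rfl
    have h2 := Fq_lt (k := k) hq0 (Q ^ i * t)
    rw [h1, Nat.cast_sub (by omega), Nat.cast_sub (by omega), Nat.cast_one]
  have h3 : ((∑ i ∈ range f, wt q k (Q ^ i * t) *
      (((Q ^ i * t)⁻¹ : (ZMod (2 ^ k))ˣ) : ZMod (2 ^ k)).val : ℕ) : ZMod (2 ^ k)) =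
      (((q : ZMod (2 ^ k)) - 1) * ∑ i ∈ range f, (q : ZMod (2 ^ k)) ^ (f - 1 - i) -
        ((∑ i ∈ range f, q ^ (f - 1 - i) * Fq q k (Q ^ i * t) : ℕ) : ZMod (2 ^ k))) *
        (q * ((t⁻¹ : (ZMod (2 ^ k))ˣ) : ZMod (2 ^ k))) := by
    rw [Nat.cast_sum, Nat.cast_sum, mul_sum, ← sum_sub_distrib, sum_mul]
    refine sum_congr rfl fun i hi => ?_
    rw [Nat.cast_mul, hw, ZMod.natCast_zmod_val, hinv i hi]
    push_cast
    ring
  have h4 : ((q : ZMod (2 ^ k)) - 1) * ∑ i ∈ range f, (q : ZMod (2 ^ k)) ^ (f - 1 - i) = 0 := by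
    rw [Finset.sum_range_reflect (fun i => (q : ZMod (2 ^ k)) ^ i) f, mul_geom_sum, hqf, sub_self]
  have h5 : ∑ i ∈ range f, q ^ (f - 1 - i) * Fq q k (Q ^ i * t) =
      M * (t : ZMod (2 ^ k)).val := by
    have h6 := tele hQ t f
    rw [hQf, one_mul, L.card] at h6
    have h7 : 2 ^ k * ∑ i ∈ range f, q ^ (f - 1 - i) * Fq q k (Q ^ i * t) =
        2 ^ k * (M * (t : ZMod (2 ^ k)).val) := by
      have h8 : (2 ^ k * M + 1) * (t : ZMod (2 ^ k)).val =
        2 ^ k * (M * (t : ZMod (2 ^ k)).val) + (t : ZMod (2 ^ k)).val := by ring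
      omega
    exact Nat.eq_of_mul_eq_mul_left (by positivity) h7
  rw [h3, h4, h5, Nat.cast_mul, ZMod.natCast_zmod_val, zero_sub]
  have h9 : (t : ZMod (2 ^ k)) * ((t⁻¹ : (ZMod (2 ^ k))ˣ) : ZMod (2 ^ k)) = 1 := Units.mul_inv t
  linear_combination (-(q : ZMod (2 ^ k)) * M) * h9

end key

theorem t_ORB : S_ORB := by
  classical
  intro q e u k f M L R _ μ Q hQ hμ
  have hord : orderOf Q = f := by
    rw [← orderOf_units, hQ, L.ord]
  have : Fintype ((ZMod (2 ^ k))ˣ ⧸ Subgroup.zpowers Q) := Fintype.ofFinite _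
  have hμ' : ∀ i t, μ (Q ^ i * t) = μ t := by
    intro i
    induction i with
    | zero => intro t; rw [pow_zero, one_mul]
    | succ i ih => intro t; rw [pow_succ', mul_assoc, hμ, ih]
  have hg : ∀ t : (ZMod (2 ^ k))ˣ, ∃ g : ℤ, ((∑ i ∈ range f, wt q k (Q ^ i * t) *
      (((Q ^ i * t)⁻¹ : (ZMod (2 ^ k))ˣ) : ZMod (2 ^ k)).val : ℕ) : ℤ) =
      -((q : ℤ) * M) + 2 ^ k * g := by
    intro t
    have h1 := key L hQ t
    have h2 : (((∑ i ∈ range f, wt q k (Q ^ i * t) *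
      (((Q ^ i * t)⁻¹ : (ZMod (2 ^ k))ˣ) : ZMod (2 ^ k)).val : ℕ) : ℤ) - -((q : ℤ) * M) : ℤ) =
        (((∑ i ∈ range f, wt q k (Q ^ i * t) *
      (((Q ^ i * t)⁻¹ : (ZMod (2 ^ k))ˣ) : ZMod (2 ^ k)).val : ℕ) : ℤ) + (q : ℤ) * M : ℤ) := by
      ring
    have h3 : ((((∑ i ∈ range f, wt q k (Q ^ i * t) *
      (((Q ^ i * t)⁻¹ : (ZMod (2 ^ k))ˣ) : ZMod (2 ^ k)).val : ℕ) : ℤ) + (q : ℤ) * M : ℤ) :
        ZMod (2 ^ k)) = 0 := by
      rw [Int.cast_add, Int.cast_natCast, h1, Int.cast_mul, Int.cast_natCast, Int.cast_natCast,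
        neg_add_cancel]
    rw [ZMod.intCast_zmod_eq_zero_iff_dvd] at h3
    obtain ⟨g, hg⟩ := h3
    refine ⟨g, ?_⟩
    push_cast at hg ⊢
    linarith
  choose g hg using hg
  refine ⟨∑ c : (ZMod (2 ^ k))ˣ ⧸ Subgroup.zpowers Q, μ c.out,
    ∑ c : (ZMod (2 ^ k))ˣ ⧸ Subgroup.zpowers Q, (g c.out : R) * μ c.out, ?_, ?_⟩
  · rw [orbit_sum Q μ, mul_sum, hord]
    refine sum_congr rfl fun c _ => ?_
    rw [sum_congr rfl fun i _ => hμ' i c.out, sum_const, card_range, nsmul_eq_mul]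
  · rw [orbit_sum Q, mul_sum, mul_sum, hord, ← sum_neg_distrib, ← sum_add_distrib]
    refine sum_congr rfl fun c _ => ?_
    have h1 := congrArg (fun x : ℤ => (x : R)) (hg c.out)
    simp only [Int.cast_natCast] at h1
    rw [sum_congr rfl fun i _ => by rw [hμ' i c.out], ← sum_mul]
    have h2 : ∑ i ∈ range f, (wt q k (Q ^ i * c.out) : R) *
        ((((Q ^ i * c.out)⁻¹ : (ZMod (2 ^ k))ˣ) : ZMod (2 ^ k)).val : R) =
        ((∑ i ∈ range f, wt q k (Q ^ i * c.out) *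
      (((Q ^ i * c.out)⁻¹ : (ZMod (2 ^ k))ˣ) : ZMod (2 ^ k)).val : ℕ) : R) := by
      push_cast
      rfl
    rw [h2, h1]
    push_cast
    ring

end Pool.Agent.Y888.UE
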